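import Mathlib

/-!
# Definitions for a proof of the PCP theorem (after Dinur)

Constraint satisfaction problem: systems of quadratic equations `x₁ x₂ + x₃ + x₄ = b` over `F₂`.
-/

set_option autoImplicit false

namespace Pool.Agent.PCP

/-! ## Systems of quadratic equations over `F₂` -/

/-- the equation `x₁ x₂ + x₃ + x₄ = b` over `F₂`; the variables are named by naturals -/
abbrev Eqn := ℕ × ℕ × ℕ × ℕ × Bool

/-- the variable in position `q` (`q = 0, 1, 2`, anything else means the last position) -/
def evar (e : Eqn) : ℕ → ℕ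
  | 0 => e.1
  | 1 => e.2.1
  | 2 => e.2.2.1
  | _ => e.2.2.2.1

/-- the right-hand side -/
def erhs (e : Eqn) : Bool := e.2.2.2.2

/-- `x₁ x₂ + x₃ + x₄ = b` -/
def quad (x₁ x₂ x₃ x₄ b : Bool) : Bool := ((x₁ && x₂) ^^ (x₃ ^^ x₄)) == b

/-- the assignment `a` satisfies the equation `e` -/
def esat (a : ℕ → Bool) (e : Eqn) : Bool := quad (a e.1) (a e.2.1) (a e.2.2.1) (a e.2.2.2.1) e.2.2.2.2

/-- number of violated equations -/
def viol (φ : List Eqn) (a : ℕ → Bool) : ℕ := φ.countP (fun e => !esat a e)

/-- some assignment satisfies all equations -/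
def Satisfiable (φ : List Eqn) : Prop := ∃ a, viol φ a = 0

/-- each assignment violates at least the fraction `ε` of the equations -/
def HasGap (φ : List Eqn) (ε : ℝ) : Prop := ∀ a, ε * φ.length ≤ viol φ a

/-! ## The expander family (quotients of Margulis graphs on `(ℤ/m)²`) -/

/-- side length of the torus used for `k` vertices: `k < m² ≤ 4 k` -/
def sideOf (k : ℕ) : ℕ := Nat.sqrt k + 1

/-- the eight generators of the torus graph on `{0, …, m² - 1}`, where `z = x * m + y` -/
def tgen (m g z : ℕ) : ℕ :=
  match g with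
  | 0 => ((z / m + 1) % m) * m + z % m
  | 1 => ((z / m + (m - 1)) % m) * m + z % m
  | 2 => (z / m) * m + (z % m + 1) % m
  | 3 => (z / m) * m + (z % m + (m - 1)) % m
  | 4 => ((z / m + z % m) % m) * m + z % m
  | 5 => ((z / m + (m - z % m)) % m) * m + z % m
  | 6 => (z / m) * m + (z % m + z / m) % m
  | _ => (z / m) * m + (z % m + (m - z / m)) % m

/-- the label of the inverse generator -/
def ginv (g : ℕ) : ℕ := if g % 2 = 0 then g + 1 else g - 1

/-- rotation map of the expander on `{0, …, k - 1}`, of degree `32`: the point `z < m²` of the torus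
lies over the vertex `z % k`, and the label `8 p + g` at the vertex `j` stands for the generator
`g` at the point `z = j + p k` (if there is no such point, the label is a loop) -/
def erot (k : ℕ) (p : ℕ × ℕ) : ℕ × ℕ :=
  if p.1 + (p.2 / 8) * k < sideOf k * sideOf k then
    (tgen (sideOf k) (p.2 % 8) (p.1 + (p.2 / 8) * k) % k,
      8 * (tgen (sideOf k) (p.2 % 8) (p.1 + (p.2 / 8) * k) / k) + ginv (p.2 % 8))
  else p

/-! ## The constraint graph of a system -/

/-- variable of the slot `s = 4 u + q` (position `q` of equation `u`) -/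
def slotVar (φ : List Eqn) (s : ℕ) : ℕ := evar (φ.getD (s / 4) (0, 0, 0, 0, false)) (s % 4)

/-- right-hand side of equation `u` -/
def rhs (φ : List Eqn) (u : ℕ) : Bool := erhs (φ.getD u (0, 0, 0, 0, false))

/-- the slots with variable `x` -/
def occ (φ : List Eqn) (x : ℕ) : List ℕ :=
  (List.range (4 * φ.length)).filter (fun s => decide (slotVar φ s = x))

/-- rotation map of the constraint graph: the vertices are the equations `0, …, φ.length - 1`, the
degree is `160`; the label `32 q + l` (`q < 4`, `l < 32`) is the label `l` at slot `4 u + q` in the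
expander on the slots with the same variable; the label `128 + l` is the label `l` in the expander
on all equations -/
def grot (φ : List Eqn) (p : ℕ × ℕ) : ℕ × ℕ :=
  if p.2 < 128 then
    ((occ φ (slotVar φ (4 * p.1 + p.2 / 32))).getD
        (erot (occ φ (slotVar φ (4 * p.1 + p.2 / 32))).length
          ((occ φ (slotVar φ (4 * p.1 + p.2 / 32))).idxOf (4 * p.1 + p.2 / 32), p.2 % 32)).1 0 / 4,
      32 * ((occ φ (slotVar φ (4 * p.1 + p.2 / 32))).getD
        (erot (occ φ (slotVar φ (4 * p.1 + p.2 / 32))).length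
          ((occ φ (slotVar φ (4 * p.1 + p.2 / 32))).idxOf (4 * p.1 + p.2 / 32), p.2 % 32)).1 0 % 4)
        + (erot (occ φ (slotVar φ (4 * p.1 + p.2 / 32))).length
          ((occ φ (slotVar φ (4 * p.1 + p.2 / 32))).idxOf (4 * p.1 + p.2 / 32), p.2 % 32)).2)
  else
    ((erot φ.length (p.1, p.2 - 128)).1, (erot φ.length (p.1, p.2 - 128)).2 + 128)

/-- letters: the values at the positions 0, 1, 2; the value at position 3 is determined by the
equation -/
abbrev Letter := Bool × Bool × Bool

/-- value at position `q` when the right-hand side is `b` -/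
def lval (q : ℕ) (b : Bool) (a : Letter) : Bool :=
  match q with
  | 0 => a.1
  | 1 => a.2.1
  | 2 => a.2.2
  | _ => (a.1 && a.2.1) ^^ (a.2.2 ^^ b)

/-- constraint on an edge with labels `l`, `l'` and right-hand sides `b`, `b'` at its ends -/
def erel (l l' : ℕ) (b b' : Bool) (a a' : Letter) : Bool :=
  decide (128 ≤ l) || (lval (l / 32) b a == lval (l' / 32) b' a')

/-! ## Walks in a graph given by a rotation map -/

section walks

variable {V Λ S : Type}

/-- end of the walk from `v` along the labels -/
def walk (rot : V × Λ → V × Λ) : V → List Λ → V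
  | v, [] => v
  | v, l :: ls => walk rot (rot (v, l)).1 ls

/-- labels of the reversed walk (from the end back to `v`) -/
def back (rot : V × Λ → V × Λ) : V → List Λ → List Λ
  | _, [] => []
  | v, l :: ls => back rot (rot (v, l)).1 ls ++ [(rot (v, l)).2]

/-- constraint of the walk from `u` along `ls` between an opinion `α` of `u` and an opinion `β` of
the end of the walk; an opinion gives a letter for each label sequence (the letter of the end of
the corresponding walk) -/
def Cons (rot : V × Λ → V × Λ) (R : V × Λ → S → S → Prop) (u : V) (ls : List Λ)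
    (α β : List Λ → S) : Prop :=
  ∀ p l q, ls = p ++ l :: q →
    R (walk rot u p, l) (α p) (β (back rot (rot (walk rot u p, l)).1 q))

/-- seeds of random walks: a length (minus one) and a sequence of labels -/
abbrev Seed (Λ : Type) (t : ℕ) : Type := Fin (2 * t) × (Fin (2 * t) → Λ)

/-- label sequence of a seed -/
def Seed.labels {t : ℕ} (s : Seed Λ t) : List Λ := (List.ofFn s.2).take (s.1.val + 1)

end walks

/-! ## The long code test -/

section longcode

variable {Y : Type}

/-- entry of a table: table of the first vertex, of the second vertex, of the edge -/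
inductive Ref (Y : Type) : Type where
  | s1 (g : Y → Bool) : Ref Y
  | s2 (g : Y → Bool) : Ref Y
  | e (h : Y × Y → Bool) : Ref Y

/-- restriction to the constraint -/
def msk (C : Y × Y → Bool) (h : Y × Y → Bool) : Y × Y → Bool := fun z => h z && C z

/-- pointwise sum -/
def hxor {X : Type} (h h' : X → Bool) : X → Bool := fun z => h z ^^ h' z

/-- index of a test -/
abbrev TI (Y : Type) : Type :=
  Fin 5 × (Y × Y → Bool) × (Y × Y → Bool) × (Y × Y → Bool)

/-- the test: an equation `x₁ x₂ + x₃ + x₄ = b` between entries of the tables -/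
def test (C : Y × Y → Bool) (τ : TI Y) : Ref Y × Ref Y × Ref Y × Ref Y × Bool :=
  match τ.1 with
  | 0 => (.e (msk C τ.2.1), .e (msk C τ.2.1), .e (msk C τ.2.2.1),
      .e (msk C (hxor τ.2.1 τ.2.2.1)), false)
  | 1 => (.e (msk C τ.2.1), .e (msk C τ.2.1), .e (msk C τ.2.2.1),
      .e (msk C (fun z => !hxor τ.2.1 τ.2.2.1 z)), true)
  | 2 => (.e (msk C τ.2.1), .e (msk C τ.2.2.1), .e (msk C τ.2.2.2),
      .e (msk C (fun z => τ.2.2.2 z ^^ (τ.2.1 z && τ.2.2.1 z))), false)
  | 3 => (.s1 (fun y => τ.2.2.1 (y, y)), .s1 (fun y => τ.2.2.1 (y, y)), .e (msk C τ.2.1),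
      .e (msk C (fun z => τ.2.1 z ^^ τ.2.2.1 (z.1, z.1))), false)
  | 4 => (.s2 (fun y => τ.2.2.1 (y, y)), .s2 (fun y => τ.2.2.1 (y, y)), .e (msk C τ.2.1),
      .e (msk C (fun z => τ.2.1 z ^^ τ.2.2.1 (z.2, z.2))), false)

/-- value of an entry -/
def Ref.eval (f₁ f₂ : (Y → Bool) → Bool) (F : (Y × Y → Bool) → Bool) : Ref Y → Bool
  | .s1 g => f₁ g
  | .s2 g => f₂ g
  | .e h => F h

/-- the test is satisfied -/
def tsat (C : Y × Y → Bool) (f₁ f₂ : (Y → Bool) → Bool) (F : (Y × Y → Bool) → Bool)
    (τ : TI Y) : Bool :=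
  quad ((test C τ).1.eval f₁ f₂ F) ((test C τ).2.1.eval f₁ f₂ F) ((test C τ).2.2.1.eval f₁ f₂ F)
    ((test C τ).2.2.2.1.eval f₁ f₂ F) (test C τ).2.2.2.2

end longcode

end Pool.Agent.PCP
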