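import Pool.Agent.PCP.Defs

/-!
# Statements of the modules

Each module proves one of these statements (as `theorem name : NameSpec`); modules may take the
statements of other modules as hypotheses.
-/

set_option autoImplicit false

open scoped BigOperators

namespace Pool.Agent.PCP

/-! ### M1 -/

/-- Poincaré inequality on the torus graph (Margulis). -/
def TorusSpec : Prop :=
  ∃ c : ℝ, 0 < c ∧ ∀ (m : ℕ) [NeZero m] (f : ZMod m × ZMod m → ℝ), ∑ z, f z = 0 →
    c * ∑ z, f z ^ 2 ≤ ∑ z : ZMod m × ZMod m, ((f (z.1 + 1, z.2) - f z) ^ 2 +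
      (f (z.1, z.2 + 1) - f z) ^ 2 + (f (z.1 + z.2, z.2) - f z) ^ 2 +
      (f (z.1, z.2 + z.1) - f z) ^ 2)

/-! ### M2 -/

/-- the expander family -/
structure ExpanderSpec : Prop where
  lt : ∀ k p : ℕ, ∀ l : ℕ, p < k → l < 32 → (erot k (p, l)).1 < k ∧ (erot k (p, l)).2 < 32
  invol : ∀ k p : ℕ, ∀ l : ℕ, p < k → l < 32 → erot k (erot k (p, l)) = (p, l)
  poincare : ∃ c : ℝ, 0 < c ∧ ∀ (k : ℕ) (f : ℕ → ℝ), 0 < k → ∑ j ∈ Finset.range k, f j = 0 →
    c * ∑ j ∈ Finset.range k, f j ^ 2 ≤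
      ∑ j ∈ Finset.range k, ∑ l ∈ Finset.range 32, (f j - f (erot k (j, l)).1) ^ 2

/-! ### M3 -/

/-- violated edges (seen from both ends) for an assignment of letters -/
def edgeViol (φ : List Eqn) (A : ℕ → Letter) : ℕ :=
  ((Finset.range φ.length ×ˢ Finset.range 160).filter (fun p =>
    erel p.2 (grot φ p).2 (rhs φ p.1) (rhs φ (grot φ p).1) (A p.1) (A (grot φ p).1) = false)).card

/-- the constraint graph -/
structure GraphSpec : Prop where
  lt : ∀ φ : List Eqn, ∀ u l : ℕ, u < φ.length → l < 160 →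
    (grot φ (u, l)).1 < φ.length ∧ (grot φ (u, l)).2 < 160
  invol : ∀ φ : List Eqn, ∀ u l : ℕ, u < φ.length → l < 160 → grot φ (grot φ (u, l)) = (u, l)
  kind : ∀ φ : List Eqn, ∀ u l : ℕ, u < φ.length → l < 160 → ((grot φ (u, l)).2 < 128 ↔ l < 128)
  poincare : ∃ c : ℝ, 0 < c ∧ ∀ (φ : List Eqn) (f : ℕ → ℝ), ∑ u ∈ Finset.range φ.length, f u = 0 →
    c * ∑ u ∈ Finset.range φ.length, f u ^ 2 ≤
      ∑ u ∈ Finset.range φ.length, ∑ l ∈ Finset.range 160, (f u - f (grot φ (u, l)).1) ^ 2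
  sound : ∃ c : ℝ, 0 < c ∧ ∀ (φ : List Eqn) (A : ℕ → Letter), ∃ a : ℕ → Bool,
    c * viol φ a ≤ edgeViol φ A
  complete : ∀ (φ : List Eqn) (a : ℕ → Bool), viol φ a = 0 →
    edgeViol φ (fun u => (a (slotVar φ (4 * u)), a (slotVar φ (4 * u + 1)),
      a (slotVar φ (4 * u + 2)))) = 0

/-! ### M4 -/

section

open scoped Classical in
/-- powering with walks of uniformly random length at most `2 t` -/
def PoweringSpec : Prop :=
  ∀ (Λ S : Type) [Fintype Λ] [Nonempty Λ] [Fintype S] [Nonempty S] (c : ℝ), 0 < c →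
  ∃ K : ℝ, 0 < K ∧ ∀ (V : Type) [Fintype V] [Nonempty V] (rot : V × Λ → V × Λ)
    (R : V × Λ → S → S → Prop), (∀ e, rot (rot e) = e) →
    (∀ e s s', R e s s' ↔ R (rot e) s' s) →
    (∀ g : V → ℝ, ∑ v, g v = 0 → c * ∑ v, g v ^ 2 ≤ ∑ e : V × Λ, (g e.1 - g (rot e).1) ^ 2) →
    ∀ (t : ℕ), 0 < t → ∀ A : V → List Λ → S, ∃ A' : V → S,
      K * min (t * ((Finset.univ.filter (fun e : V × Λ => ¬ R e (A' e.1) (A' (rot e).1))).card /
          (Fintype.card V * Fintype.card Λ : ℝ))) 1 * (Fintype.card (V × Seed Λ t)) ≤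
        (Finset.univ.filter (fun x : V × Seed Λ t => ¬ Cons rot R x.1 x.2.labels (A x.1)
          (A (walk rot x.1 x.2.labels)))).card

end

/-! ### M5 -/

section

open scoped Classical in
/-- decoding: the dictator at distance less than `1/4`, if there is one -/
noncomputable def dec {Y : Type} [Fintype Y] [DecidableEq Y] [Nonempty Y]
    (f : (Y → Bool) → Bool) : Y :=
  if h : ∃ y, 4 * (Finset.univ.filter (fun g : Y → Bool => f g ≠ g y)).card <
      Fintype.card (Y → Bool) then h.choose else Classical.arbitrary Y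

/-- the long code test -/
structure LongCodeSpec : Prop where
  sound : ∃ δ : ℝ, 0 < δ ∧ ∀ (Y : Type) [Fintype Y] [DecidableEq Y] [Nonempty Y] (C : Y × Y → Bool)
    (f₁ f₂ : (Y → Bool) → Bool) (F : (Y × Y → Bool) → Bool), C (dec f₁, dec f₂) = false →
    δ * Fintype.card (TI Y) ≤ (Finset.univ.filter (fun τ : TI Y => tsat C f₁ f₂ F τ = false)).card
  complete : ∀ (Y : Type) (C : Y × Y → Bool) (y₁ y₂ : Y), C (y₁, y₂) = true → ∀ τ : TI Y,
    tsat C (fun g => g y₁) (fun g => g y₂) (fun h => h (y₁, y₂)) τ = true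

end

/-! ### M6 -/

section

/-- label sequences of length less than `2 t` -/
abbrev Pth (Λ : Type) (t : ℕ) : Type := {l : List Λ // l.length < 2 * t}

noncomputable instance instFintypePth (Λ : Type) [Fintype Λ] (t : ℕ) : Fintype (Pth Λ t) :=
  (List.finite_length_lt Λ (2 * t)).fintype

/-- opinions -/
def Opn (Λ S : Type) (t : ℕ) : Type := Pth Λ t → S

noncomputable instance instDecidableEqOpn (Λ S : Type) (t : ℕ) : DecidableEq (Opn Λ S t) :=
  Classical.decEq _

open scoped Classical in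
noncomputable instance instFintypeOpn (Λ S : Type) [Fintype Λ] [Fintype S] (t : ℕ) :
    Fintype (Opn Λ S t) := inferInstanceAs (Fintype (Pth Λ t → S))

instance instInhabitedOpn (Λ S : Type) [Inhabited S] (t : ℕ) : Inhabited (Opn Λ S t) :=
  ⟨fun _ => default⟩

/-- extension of an opinion to all label sequences -/
def ext {Λ S : Type} [Inhabited S] {t : ℕ} (α : Opn Λ S t) : List Λ → S :=
  fun l => if h : l.length < 2 * t then α ⟨l, h⟩ else default

open scoped Classical in
/-- the constraint between the opinions of the two ends of a walk -/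
noncomputable def ccon {V Λ S : Type} [Inhabited S] {t : ℕ} (rot : V × Λ → V × Λ)
    (R : V × Λ → S → S → Prop) (u : V) (s : Seed Λ t) : Opn Λ S t × Opn Λ S t → Bool :=
  fun y => decide (Cons rot R u s.labels (ext y.1) (ext y.2))

open scoped Classical in
/-- powering followed by the long code test -/
structure ComposedSpec : Prop where
  sound : ∀ (Λ S : Type) [Fintype Λ] [Nonempty Λ] [Fintype S] [Inhabited S] (c : ℝ), 0 < c →
    ∃ K : ℝ, 0 < K ∧ ∀ (V : Type) [Fintype V] [Nonempty V] (rot : V × Λ → V × Λ)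
    (R : V × Λ → S → S → Prop), (∀ e, rot (rot e) = e) →
    (∀ e s s', R e s s' ↔ R (rot e) s' s) →
    (∀ g : V → ℝ, ∑ v, g v = 0 → c * ∑ v, g v ^ 2 ≤ ∑ e : V × Λ, (g e.1 - g (rot e).1) ^ 2) →
    ∀ (t : ℕ), 0 < t → ∀ (f : V → (Opn Λ S t → Bool) → Bool)
      (F : V → Seed Λ t → (Opn Λ S t × Opn Λ S t → Bool) → Bool), ∃ A' : V → S,
      K * min (t * ((Finset.univ.filter (fun e : V × Λ => ¬ R e (A' e.1) (A' (rot e).1))).card /
          (Fintype.card V * Fintype.card Λ : ℝ))) 1 *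
          (Fintype.card (V × Seed Λ t × TI (Opn Λ S t))) ≤
        (Finset.univ.filter (fun x : V × Seed Λ t × TI (Opn Λ S t) =>
          tsat (ccon rot R x.1 x.2.1) (f x.1) (f (walk rot x.1 x.2.1.labels)) (F x.1 x.2.1)
            x.2.2 = false)).card
  complete : ∀ (V Λ S : Type) [Inhabited S] (rot : V × Λ → V × Λ)
    (R : V × Λ → S → S → Prop), (∀ e, rot (rot e) = e) → ∀ (t : ℕ) (A' : V → S),
    (∀ e : V × Λ, R e (A' e.1) (A' (rot e).1)) →
    ∀ (u : V) (s : Seed Λ t) (τ : TI (Opn Λ S t)),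
      tsat (ccon rot R u s) (fun g => g (fun p => A' (walk rot u p.1)))
        (fun g => g (fun p => A' (walk rot (walk rot u s.labels) p.1)))
        (fun h => h (fun p => A' (walk rot u p.1),
          fun p => A' (walk rot (walk rot u s.labels) p.1))) τ = true

end

end Pool.Agent.PCP
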