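import Pool.Agent.PCP.StepDefs
import Pool.Agent.Lib.helper60.Bridge

/-!
# Polynomial-time statements, and the starting point of the reduction
-/

set_option autoImplicit false

namespace Pool.Agent.PCP

open Lib.helper60

/-! ### P1 -/

/-- the constraint graph is computed in polynomial time -/
structure GraphPTSpec : Prop where
  pt_erot : PT (fun x : ℕ × ℕ × ℕ => erot x.1 x.2)
  pt_grot : PT (fun x : List Eqn × ℕ × ℕ => grot x.1 x.2)
  pt_rhs : PT (fun x : List Eqn × ℕ => rhs x.1 x.2)

/-! ### P2 -/

/-- functions given by a table: for a list of arguments, the value is looked up -/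
def TableSpec : Prop :=
  ∀ (α β : Type) [DEnc α] [DEnc β] [DecidableEq α], Function.Injective (toD : α → D) →
    ∀ (l : List α) (f : α → β) (d : β), PT (fun x : α => if x ∈ l then f x else d)

/-- one round is computed in polynomial time -/
structure StepPTSpec : Prop where
  pt : ∀ t, PT (step t)
  size : ∀ t, ∃ C : ℕ, ∀ φ, tsize (step t φ) ≤ C * (φ.length + 1) ^ 2

/-! ### P3 -/

/-- the amplification is computed in polynomial time -/
def AmplifyPTSpec : Prop := ∀ t, PT (amplify t)

/-! ### S -/

/-- variable whose value is the negation of the literal (`3 v + 1` is the variable `v`, `3 v + 2`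
its negation, `0` is false) -/
def flit (l : H66.Lit) : ℕ := bif l.1 then 3 * l.2 + 2 else 3 * l.2 + 1

/-- the equations of the `i`-th clause -/
def clauseEqns (i : ℕ) (c : H66.Cl) : List Eqn :=
  [(flit c.1, flit c.2.1, 3 * i + 3, 0, false),
    (3 * i + 3, flit c.2.2, 0, 0, false),
    (3 * c.1.2 + 1, 3 * c.1.2 + 1, 3 * c.1.2 + 2, 0, true),
    (3 * c.2.1.2 + 1, 3 * c.2.1.2 + 1, 3 * c.2.1.2 + 2, 0, true),
    (3 * c.2.2.2 + 1, 3 * c.2.2.2 + 1, 3 * c.2.2.2 + 2, 0, true)]

/-- from three-literal clauses to equations -/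
def red3 (φ : List H66.Cl) : List Eqn :=
  (0, 0, 0, 0, false) :: (List.range φ.length).flatMap (fun i =>
    clauseEqns i (φ.getD i ((false, 0), (false, 0), (false, 0))))

/-- the starting point -/
structure Red3Spec : Prop where
  correct : ∀ φ, H66.Sat3 φ ↔ Satisfiable (red3 φ)
  pt : PT red3

end Pool.Agent.PCP
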