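import Pool.Agent.PCP.Spec

/-!
# One round of gap amplification, on lists of equations
-/

set_option autoImplicit false

namespace Pool.Agent.PCP

/-- end of the walk from `u` along the labels `ls` in the constraint graph of `φ` -/
def wend (φ : List Eqn) : ℕ → List ℕ → ℕ
  | u, [] => u
  | u, l :: ls => wend φ (grot φ (u, l)).1 ls

/-- data of the walk: for each step the label at the far end and the two right-hand sides -/
def wdata (φ : List Eqn) : ℕ → List ℕ → List (ℕ × Bool × Bool)
  | _, [] => []
  | u, l :: ls => ((grot φ (u, l)).2 % 160, rhs φ u, rhs φ (grot φ (u, l)).1) ::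
      wdata φ (grot φ (u, l)).1 ls

variable (t : ℕ)

/-- opinions in the constraint graph -/
abbrev Op : Type := Opn (Fin 160) Letter t

/-- seeds in the constraint graph -/
abbrev Sd : Type := Seed (Fin 160) t

variable {t}

/-- constraint between opinions, computed from the data of the walk -/
def dcon (ls : List (Fin 160)) (d : List (ℕ × Bool × Bool)) : Op t × Op t → Bool := fun y =>
  (List.range ls.length).all (fun j =>
    erel (ls.getD j 0).val (d.getD j (0, false, false)).1 (d.getD j (0, false, false)).2.1
      (d.getD j (0, false, false)).2.2 (ext y.1 (ls.take j))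
      (ext y.2 (((d.drop (j + 1)).map (fun z => Fin.ofNat 160 z.1)).reverse)))

/-- names of the entries of the tables of one vertex -/
abbrev Loc (t : ℕ) : Type := (Op t → Bool) ⊕ (Sd t × (Op t × Op t → Bool))

/-- number of entries of the tables of one vertex -/
noncomputable def locCard (t : ℕ) : ℕ := Fintype.card (Loc t)

/-- index of an entry -/
noncomputable def locIdx (x : Loc t) : ℕ := (Fintype.equivFin (Loc t) x).val

/-- name of an entry, for a walk from `u` to `v` with seed `s` -/
noncomputable def rname (u v : ℕ) (s : Sd t) : Ref (Op t) → ℕ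
  | .s1 g => u * locCard t + locIdx (Sum.inl g)
  | .s2 g => v * locCard t + locIdx (Sum.inl g)
  | .e h => u * locCard t + locIdx (Sum.inr (s, h))

/-- the equation of a test, from the ends `u`, `v` and the data `d` of the walk -/
noncomputable def mkEqn (u v : ℕ) (d : List (ℕ × Bool × Bool)) (s : Sd t) (τ : TI (Op t)) : Eqn :=
  (rname u v s (test (dcon s.labels d) τ).1,
    rname u v s (test (dcon s.labels d) τ).2.1,
    rname u v s (test (dcon s.labels d) τ).2.2.1,
    rname u v s (test (dcon s.labels d) τ).2.2.2.1,
    (test (dcon s.labels d) τ).2.2.2.2)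

/-- the equations at the vertex `u` -/
noncomputable def stepAt (t : ℕ) (φ : List Eqn) (u : ℕ) : List Eqn :=
  (Finset.univ : Finset (Sd t × TI (Op t))).toList.map (fun x =>
    mkEqn u (wend φ u (x.1.labels.map Fin.val)) (wdata φ u (x.1.labels.map Fin.val)) x.1 x.2)

/-- **one round of gap amplification** -/
noncomputable def step (t : ℕ) (φ : List Eqn) : List Eqn :=
  (List.range φ.length).flatMap (stepAt t φ)

/-! ### M7 -/

/-- one round of gap amplification -/
structure StepSpec : Prop where
  length : ∀ t φ, (step t φ).length = Fintype.card (Sd t × TI (Op t)) * φ.length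
  names : ∀ t φ, ∀ e ∈ step t φ, e.1 < locCard t * φ.length ∧ e.2.1 < locCard t * φ.length ∧
    e.2.2.1 < locCard t * φ.length ∧ e.2.2.2.1 < locCard t * φ.length
  complete : ∀ t φ, Satisfiable φ → Satisfiable (step t φ)
  sound : ∃ (t : ℕ) (γ : ℝ), 0 < t ∧ 0 < γ ∧ ∀ (φ : List Eqn) (ε : ℝ), φ ≠ [] → HasGap φ ε →
    HasGap (step t φ) (min (2 * ε) γ)

/-! ### M9 -/

/-- repeated amplification -/
noncomputable def amplify (t : ℕ) (φ : List Eqn) : List Eqn :=
  (step t)^[Nat.log 2 φ.length + 1] φ

/-- full amplification -/
structure AmplifySpec : Prop where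
  ne_nil : ∀ t φ, 0 < t → φ ≠ [] → amplify t φ ≠ []
  complete : ∀ t φ, Satisfiable φ → Satisfiable (amplify t φ)
  sound : ∃ (t : ℕ) (γ : ℝ), 0 < t ∧ 0 < γ ∧ ∀ (φ : List Eqn), φ ≠ [] → ¬ Satisfiable φ →
    HasGap (amplify t φ) γ

end Pool.Agent.PCP
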